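import Pool.Agent.H756.GN.Stm

/-!
# Project GN, package LIFT: from the positive part to the body
-/

set_option autoImplicit false

namespace Pool.Agent.U99.GN

open MeasureTheory Set Filter Topology
open Pool.Agent.R972.OP (pd)
open Pool.Agent.U959.OC (en)
open Pool.Agent.H756.GN

variable {n : ℕ}

/-- the sign change as a continuous linear map -/
noncomputable def L (a : Fin n) : (Fin n → ℝ) →L[ℝ] (Fin n → ℝ) :=
  ContinuousLinearMap.pi fun i => (if i = a then (-1 : ℝ) else 1) • ContinuousLinearMap.proj i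

theorem L_apply (a : Fin n) (x : Fin n → ℝ) : L a x = fl a x := by
  funext i
  by_cases h : i = a
  · subst h
    simp [L, fl]
  · simp [L, fl, h]

theorem fl_same (a : Fin n) (x : Fin n → ℝ) : fl a x a = -x a := by simp [fl]

theorem fl_ne {a i : Fin n} (h : i ≠ a) (x : Fin n → ℝ) : fl a x i = x i := by simp [fl, h]

theorem fl_abs (a : Fin n) (x : Fin n → ℝ) (i : Fin n) : |fl a x i| = |x i| := by
  by_cases h : i = a
  · subst h; rw [fl_same, abs_neg]
  · rw [fl_ne h]

theorem fl_fl (a : Fin n) (x : Fin n → ℝ) : fl a (fl a x) = x := by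
  funext i
  by_cases h : i = a
  · subst h; rw [fl_same, fl_same, neg_neg]
  · rw [fl_ne h, fl_ne h]

theorem fl_comm (a b : Fin n) (x : Fin n → ℝ) : fl a (fl b x) = fl b (fl a x) := by
  funext i
  by_cases h : i = a
  · subst h
    by_cases h' : i = b
    · subst h'; rfl
    · rw [fl_same, fl_ne h', fl_ne h', fl_same]
  · rw [fl_ne h]
    by_cases h' : i = b
    · subst h'; rw [fl_same, fl_same, fl_ne h]
    · rw [fl_ne h', fl_ne h', fl_ne h]

theorem fl_cont (a : Fin n) : Continuous (fl a) := by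
  have : fl a = fun x => L a x := by funext x; exact (L_apply a x).symm
  rw [this]
  exact (L a).continuous

theorem fl_mp (a : Fin n) : MeasurePreserving (fl a) (volume : Measure (Fin n → ℝ)) volume := by
  have h := volume_preserving_pi (ι := Fin n) (α' := fun _ => ℝ) (β' := fun _ => ℝ)
    (f := fun i => if i = a then (fun t : ℝ => -t) else id) (by
      intro i
      by_cases h : i = a
      · simp only [h, if_true]
        exact Measure.measurePreserving_neg volume
      · simp only [h, if_false]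
        exact MeasurePreserving.id volume)
  have e : (fun (x : Fin n → ℝ) (i : Fin n) => (if i = a then (fun t : ℝ => -t) else id) (x i)) =
      fl a := by
    funext x i
    by_cases h : i = a
    · subst h; rw [fl_same]; simp
    · rw [fl_ne h]; simp [h]
  rw [e] at h
  exact h

theorem fl_me (a : Fin n) : MeasurableEmbedding (fl a) :=
  (MeasurableEquiv.ofInvolutive (fl a) (fl_fl a) (fl_cont a).measurable).measurableEmbedding

theorem fl_set {K : Set (Fin n → ℝ)} (a : Fin n) (h : fl a ⁻¹' K = K) (g : (Fin n → ℝ) → ℝ) :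
    ∫ x in K, g (fl a x) = ∫ x in K, g x := by
  have := (fl_mp a).setIntegral_preimage_emb (fl_me a) g K
  rwa [h] at this

theorem unc_fl {K : Set (Fin n → ℝ)} (hK : Unc K) (a : Fin n) : fl a ⁻¹' K = K := by
  ext x
  constructor
  · intro h
    exact hK.unc _ h x fun i => by rw [fl_abs]
  · intro h
    exact hK.unc _ h (fl a x) fun i => by rw [fl_abs]

theorem io {K : Set (Fin n → ℝ)} (hK : Unc K) {g : (Fin n → ℝ) → ℝ} (hg : Continuous g) :
    IntegrableOn g K volume := hg.continuousOn.integrableOn_compact hK.comp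

theorem pd_cont {f : (Fin n → ℝ) → ℝ} (hf : ContDiff ℝ 1 f) (b : Fin n) : Continuous (pd f b) := by
  unfold pd
  exact (hf.continuous_fderiv one_ne_zero).clm_apply continuous_const

/-- the sign -/
noncomputable def sgn (a b : Fin n) : ℝ := if b = a then -1 else 1

theorem sgn_sq (a b : Fin n) : sgn a b ^ 2 = 1 := by
  unfold sgn; split_ifs <;> norm_num

theorem pd_fl {f : (Fin n → ℝ) → ℝ} (hf : ContDiff ℝ 1 f) (a b : Fin n) (x : Fin n → ℝ) :
    pd (fun y => f (fl a y)) b x = sgn a b * pd f b (fl a x) := by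
  unfold pd
  have e : (fun y => f (fl a y)) = f ∘ (L a) := by funext y; simp [L_apply]
  have hd : DifferentiableAt ℝ f (L a x) := hf.differentiable one_ne_zero _
  rw [e, fderiv_comp x hd (L a).differentiableAt, ContinuousLinearMap.fderiv,
    ContinuousLinearMap.comp_apply, L_apply, L_apply]
  have : fl a (Pi.single b (1 : ℝ)) = sgn a b • (Pi.single b (1 : ℝ) : Fin n → ℝ) := by
    funext i
    by_cases h : i = a
    · subst h
      rw [fl_same]
      by_cases h' : i = b
      · subst h'; simp [sgn]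
      · simp [sgn, h']
    · rw [fl_ne h]
      by_cases h' : i = b
      · subst h'; simp [sgn, h]
      · simp [h']
  rw [this, map_smul, smul_eq_mul]

/-- the even part -/
noncomputable def Pe (a : Fin n) (f : (Fin n → ℝ) → ℝ) (x : Fin n → ℝ) : ℝ := (f x + f (fl a x)) / 2

theorem fl_cd {f : (Fin n → ℝ) → ℝ} (hf : ContDiff ℝ 1 f) (a : Fin n) :
    ContDiff ℝ 1 fun y => f (fl a y) := by
  have e : (fun y => f (fl a y)) = f ∘ (L a) := by funext y; simp [L_apply]
  rw [e]
  exact hf.comp (L a).contDiff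

theorem Pe_cd {f : (Fin n → ℝ) → ℝ} (hf : ContDiff ℝ 1 f) (a : Fin n) : ContDiff ℝ 1 (Pe a f) := by
  unfold Pe
  exact (hf.add (fl_cd hf a)).div_const 2

theorem Pe_pd {f : (Fin n → ℝ) → ℝ} (hf : ContDiff ℝ 1 f) (a b : Fin n) (x : Fin n → ℝ) :
    pd (Pe a f) b x = (pd f b x + sgn a b * pd f b (fl a x)) / 2 := by
  rw [← pd_fl hf a b x]
  have h1 : DifferentiableAt ℝ f x := hf.differentiable one_ne_zero _
  have h2 : DifferentiableAt ℝ (fun y => f (fl a y)) x := (fl_cd hf a).differentiable one_ne_zero _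
  have e : Pe a f = fun y => (1 / 2 : ℝ) * (f y + f (fl a y)) := by funext y; unfold Pe; ring
  unfold pd
  have h3 : DifferentiableAt ℝ (fun y => f y + f (fl a y)) x := h1.add h2
  have h4 : fderiv ℝ (fun y => (1 / 2 : ℝ) * (f y + f (fl a y))) x =
      (1 / 2 : ℝ) • fderiv ℝ (fun y => f y + f (fl a y)) x := fderiv_const_mul h3 _
  have : fderiv ℝ (fun y => f y + f (fl a y)) x = fderiv ℝ f x + fderiv ℝ (fun y => f (fl a y)) x :=
    fderiv_add h1 h2
  rw [e, h4, this]
  simp only [smul_apply, add_apply, smul_eq_mul]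
  ring

theorem Pe_int {K : Set (Fin n → ℝ)} (hK : Unc K) {f : (Fin n → ℝ) → ℝ} (hf : Continuous f)
    (a : Fin n) : ∫ x in K, Pe a f x = ∫ x in K, f x := by
  have h1 := io hK hf
  have h2 : IntegrableOn (fun x => f (fl a x)) K volume := io hK (hf.comp (fl_cont a))
  unfold Pe
  rw [integral_div, integral_add h1 h2, fl_set a (unc_fl hK a) f]
  ring

theorem Pe_sq {K : Set (Fin n → ℝ)} (hK : Unc K) {f : (Fin n → ℝ) → ℝ} (hf : Continuous f)
    (a : Fin n) : ∫ x in K, f x ^ 2 =
      (∫ x in K, Pe a f x ^ 2) + ∫ x in K, ((f x - f (fl a x)) / 2) ^ 2 := by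
  have hc := fl_cont a
  have h1 : IntegrableOn (fun x => Pe a f x ^ 2) K volume := io hK (by unfold Pe; fun_prop)
  have h2 : IntegrableOn (fun x => ((f x - f (fl a x)) / 2) ^ 2) K volume := io hK (by fun_prop)
  have h3 : IntegrableOn (fun x => f x ^ 2) K volume := io hK (by fun_prop)
  have h4 : IntegrableOn (fun x => f (fl a x) ^ 2) K volume := io hK (by fun_prop)
  rw [← integral_add h1 h2]
  have e : (fun x => Pe a f x ^ 2 + ((f x - f (fl a x)) / 2) ^ 2) =
      fun x => (f x ^ 2 + f (fl a x) ^ 2) / 2 := by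
    funext x; unfold Pe; ring
  rw [e, integral_div, integral_add h3 h4, fl_set a (unc_fl hK a) (fun x => f x ^ 2)]
  ring

theorem Pe_pd_int {K : Set (Fin n → ℝ)} (hK : Unc K) {f : (Fin n → ℝ) → ℝ} (hf : ContDiff ℝ 1 f)
    (a b : Fin n) : ∫ x in K, pd (Pe a f) b x ^ 2 ≤ ∫ x in K, pd f b x ^ 2 := by
  have hc := fl_cont a
  have hp := pd_cont hf b
  have h0 : IntegrableOn (fun x => pd (Pe a f) b x ^ 2) K volume :=
    io hK ((pd_cont (Pe_cd hf a) b).pow 2)
  have h3 : IntegrableOn (fun x => pd f b x ^ 2) K volume := io hK (by fun_prop)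
  have h4 : IntegrableOn (fun x => pd f b (fl a x) ^ 2) K volume := io hK (by fun_prop)
  have key : ∫ x in K, pd (Pe a f) b x ^ 2 ≤
      ∫ x in K, (pd f b x ^ 2 + pd f b (fl a x) ^ 2) / 2 := by
    refine integral_mono h0 ((h3.add h4).div_const 2) fun x => ?_
    show pd (Pe a f) b x ^ 2 ≤ (pd f b x ^ 2 + pd f b (fl a x) ^ 2) / 2
    rw [Pe_pd hf]
    have hs := sgn_sq a b
    nlinarith [sq_nonneg (pd f b x - sgn a b * pd f b (fl a x)), sq_nonneg (pd f b (fl a x))]
  rw [integral_div, integral_add h3 h4, fl_set a (unc_fl hK a) (fun x => pd f b x ^ 2)] at key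
  linarith

theorem sym {K : Set (Fin n → ℝ)} (hK : Unc K) (hF : S_FLIP) (s : Finset (Fin n))
    (f : (Fin n → ℝ) → ℝ) (hf : ContDiff ℝ 1 f) :
    ∃ h : (Fin n → ℝ) → ℝ, ContDiff ℝ 1 h ∧ (∀ b ∈ s, ∀ x, h (fl b x) = h x) ∧
      (∫ x in K, h x = ∫ x in K, f x) ∧
      (∀ b, ∫ x in K, pd h b x ^ 2 ≤ ∫ x in K, pd f b x ^ 2) ∧
      (∫ x in K, f x ^ 2) ≤ (∫ x in K, h x ^ 2) + ∑ a ∈ s, 1 / 2 * ∫ x in K, pd f a x ^ 2 := by
  classical
  induction s using Finset.induction_on with
  | empty => exact ⟨f, hf, by simp, rfl, fun _ => le_rfl, by simp⟩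
  | insert a s ha ih =>
    obtain ⟨h, h1, h2, h3, h4, h5⟩ := ih
    refine ⟨Pe a h, Pe_cd h1 a, ?_, ?_, ?_, ?_⟩
    · intro b hb x
      rcases Finset.mem_insert.1 hb with rfl | hb
      · unfold Pe; rw [fl_fl]; ring
      · unfold Pe; rw [h2 b hb, fl_comm, h2 b hb]
    · rw [Pe_int hK h1.continuous, h3]
    · intro b
      exact (Pe_pd_int hK h1 a b).trans (h4 b)
    · rw [Finset.sum_insert ha]
      have e1 := Pe_sq hK h1.continuous a
      have e2 := hF n K hK a h h1
      have e3 := h4 a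
      linarith

/-- the part of `K` where the coordinates in `s` are nonnegative -/
def Ks (K : Set (Fin n → ℝ)) (s : Finset (Fin n)) : Set (Fin n → ℝ) := {x | x ∈ K ∧ ∀ i ∈ s, 0 ≤ x i}

theorem Ks_meas {K : Set (Fin n → ℝ)} (hK : Unc K) (s : Finset (Fin n)) : MeasurableSet (Ks K s) := by
  have : Ks K s = K ∩ ⋂ i ∈ s, {x | 0 ≤ x i} := by
    ext x; simp [Ks]
  rw [this]
  refine hK.comp.isClosed.measurableSet.inter ?_
  refine Finset.measurableSet_biInter s fun i _ => ?_
  exact measurableSet_le measurable_const (measurable_pi_apply i)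

theorem null_a (a : Fin n) : volume {x : Fin n → ℝ | x a = 0} = 0 := by
  have h := Measure.pi_hyperplane (fun _ : Fin n => (volume : Measure ℝ)) a 0
  rwa [← volume_pi] at h

theorem Ks_fold {K : Set (Fin n → ℝ)} (hK : Unc K) {g : (Fin n → ℝ) → ℝ} (hg : Continuous g)
    (hi : ∀ b x, g (fl b x) = g x) (s : Finset (Fin n)) :
    ∫ x in K, g x = 2 ^ s.card * ∫ x in Ks K s, g x := by
  classical
  induction s using Finset.induction_on with
  | empty =>
    have : Ks K ∅ = K := by ext x; simp [Ks]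
    rw [this]; simp
  | insert a s ha ih =>
    rw [ih, Finset.card_insert_of_notMem ha, pow_succ, mul_assoc]
    congr 1
    have hio : IntegrableOn g (Ks K s) volume := (io hK hg).mono_set fun x hx => hx.1
    have hm : MeasurableSet {x : Fin n → ℝ | 0 ≤ x a} :=
      measurableSet_le measurable_const (measurable_pi_apply a)
    have e1 : Ks K (insert a s) = Ks K s ∩ {x | 0 ≤ x a} := by
      ext x
      simp only [Ks, Finset.mem_insert, forall_eq_or_imp, mem_ofPred_eq, mem_inter_iff]
      tauto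
    have hsplit := integral_inter_add_sdiff (μ := volume) (f := g) (s := Ks K s) hm hio
    have e2 : ∫ x in Ks K s \ {x | 0 ≤ x a}, g x = ∫ x in Ks K s ∩ {x | 0 ≤ x a}, g x := by
      have h1 : Ks K s \ {x | 0 ≤ x a} = fl a ⁻¹' (Ks K s ∩ {x | 0 < x a}) := by
        ext x
        have hKx : fl a x ∈ K ↔ x ∈ K := by
          have := unc_fl hK a
          constructor
          · intro h; rw [← this]; exact h
          · intro h; rw [← this] at h; exact h
        have hs : (∀ i ∈ s, 0 ≤ fl a x i) ↔ ∀ i ∈ s, 0 ≤ x i := by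
          refine forall₂_congr fun i hi => ?_
          have hia : i ≠ a := fun h => ha (by rw [← h]; exact hi)
          rw [fl_ne hia]
        simp only [Ks, Set.mem_sdiff, mem_ofPred_eq, mem_preimage, mem_inter_iff, hKx, hs, fl_same, not_le,
          Left.neg_pos_iff]
      have h2 : ∫ x in fl a ⁻¹' (Ks K s ∩ {x | 0 < x a}), g x =
          ∫ x in Ks K s ∩ {x | 0 < x a}, g x := by
        have := (fl_mp a).setIntegral_preimage_emb (fl_me a) g (Ks K s ∩ {x | 0 < x a})
        simpa only [hi] using this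
      rw [h1, h2]
      refine setIntegral_congr_set ?_
      have hne : ∀ᵐ x : Fin n → ℝ, x a ≠ 0 := by
        rw [ae_iff]
        simpa using null_a a
      filter_upwards [hne] with x hx
      apply propext
      show x ∈ Ks K s ∩ {x | 0 < x a} ↔ x ∈ Ks K s ∩ {x | 0 ≤ x a}
      simp only [mem_inter_iff, mem_ofPred_eq]
      constructor
      · rintro ⟨h, h'⟩; exact ⟨h, h'.le⟩
      · rintro ⟨h, h'⟩; exact ⟨h, lt_of_le_of_ne h' (Ne.symm hx)⟩
    rw [e1, ← hsplit, e2]
    ring

theorem pos_fold {K : Set (Fin n → ℝ)} (hK : Unc K) {g : (Fin n → ℝ) → ℝ} (hg : Continuous g)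
    (hi : ∀ b x, g (fl b x) = g x) :
    ∫ x in K, g x = 2 ^ n * ∫ x in pos K, g x := by
  have h := Ks_fold hK hg hi Finset.univ
  have e : Ks K Finset.univ = pos K := by ext x; simp [Ks, pos]
  rw [e, Finset.card_univ, Fintype.card_fin] at h
  exact h

theorem en_cont' {f : (Fin n → ℝ) → ℝ} (hf : ContDiff ℝ 1 f) : Continuous (en f) := by
  unfold en
  exact continuous_finsetSum _ fun a _ => (pd_cont hf a).pow 2

theorem en_int {K : Set (Fin n → ℝ)} (hK : Unc K) {f : (Fin n → ℝ) → ℝ} (hf : ContDiff ℝ 1 f) :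
    ∫ x in K, en f x = ∑ a, ∫ x in K, pd f a x ^ 2 := by
  unfold en
  exact integral_finsetSum _ fun a _ => io hK ((pd_cont hf a).pow 2)

theorem t_LIFT : S_FLIP → S_LIFT := by
  intro hF n K hK C hC H f hf
  obtain ⟨h, h1, h2, h3, h4, h5⟩ := sym hK hF Finset.univ f hf
  have hi : ∀ b x, h (fl b x) = h x := fun b x => h2 b (Finset.mem_univ b) x
  have hpd : ∀ a b x, pd h b (fl a x) ^ 2 = pd h b x ^ 2 := by
    intro a b x
    have e : (fun y => h (fl a y)) = h := by funext y; exact hi a y
    have := pd_fl h1 a b x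
    rw [e] at this
    rw [this, mul_pow, sgn_sq, one_mul]
  have f0 := pos_fold hK (g := fun _ => (1 : ℝ)) continuous_const (fun _ _ => rfl)
  have f1 := pos_fold hK h1.continuous hi
  have f2 := pos_fold hK (g := fun x => h x ^ 2) (h1.continuous.pow 2) (fun b x => by rw [hi])
  have f3 := pos_fold hK (en_cont' h1) (fun b x => by
    unfold en
    exact Finset.sum_congr rfl fun a _ => hpd b a x)
  have v : ∀ S : Set (Fin n → ℝ), ∫ _x in S, (1 : ℝ) = (volume S).toReal := fun S => by
    simp [Measure.real]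
  rw [v, v] at f0
  have H1 := H h h1
  have hen : ∫ x in K, en h x ≤ ∫ x in K, en f x := by
    rw [en_int hK h1, en_int hK hf]
    exact Finset.sum_le_sum fun b _ => h4 b
  rw [← Finset.mul_sum, ← en_int hK hf] at h5
  have hV : 0 ≤ (volume K).toReal := ENNReal.toReal_nonneg
  have H2 : (volume K).toReal * (∫ x in K, h x ^ 2) - (∫ x in K, h x) ^ 2 ≤
      (volume K).toReal * (C * ∫ x in K, en h x) := by
    rw [f0, f1, f2, f3]
    have hp : (0 : ℝ) ≤ (2 ^ n) ^ 2 := by positivity
    have := mul_le_mul_of_nonneg_left H1 hp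
    calc _ = ((2 : ℝ) ^ n) ^ 2 * ((volume (pos K)).toReal * (∫ x in pos K, h x ^ 2) -
          (∫ x in pos K, h x) ^ 2) := by ring
      _ ≤ _ := this
      _ = _ := by ring
  have H3 := mul_le_mul_of_nonneg_left h5 hV
  have H4 := mul_le_mul_of_nonneg_left (mul_le_mul_of_nonneg_left hen hC) hV
  rw [← h3]
  nlinarith [H2, H3, H4]

end Pool.Agent.U99.GN
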